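import Pool.Agent.Helper72.GP.Glue

/-!
# GP-H2: gluing along the face, main part
-/

set_option autoImplicit false

namespace Pool.Agent.Helper72.GP

open MeasureTheory ProbabilityTheory Filter Pool.Agent.Helper79.GR Pool.Agent.Helper79.GQ
open Pool.Agent.Helper51.NP Pool.Agent.Helper51.GP
open scoped Topology

variable {Ω : Type*} [MeasurableSpace Ω] {P : Measure Ω} {d : ℕ} {X : ℕ → Edge d → Ω → ℝ}
  {ν : ℕ → Measure ℝ} {δ : ℕ → ℝ} {a K : ℝ} {m C : ℕ} {u : F d → ℝ} {v : F d}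
  {h : F d →L[ℝ] ℝ}

theorem two_pow_le_exp (L : ℕ) : (2 : ℝ) ^ L ≤ Real.exp L := by
  have h1 : (2 : ℝ) ≤ Real.exp 1 := by
    have := Real.add_one_le_exp 1
    linarith
  calc (2 : ℝ) ^ L ≤ (Real.exp 1) ^ L := by gcongr
    _ = Real.exp L := by rw [← Real.exp_nat_mul, mul_one]

theorem aux_w {t x y : ℝ} (ht : 1 ≤ t) (hx : 0 ≤ x) (hy : 0 < y) :
    (2 * t + x + 1) / y ≤ (3 + x) / y * t := by
  rw [div_mul_eq_mul_div]
  refine div_le_div_of_nonneg_right ?_ hy.le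
  nlinarith

theorem aux_e1 (C : ℕ) (L : ℝ) (hL : 0 ≤ L) :
    Real.exp L * Real.exp (C * L) ≤ (Real.exp (((C + 1 : ℕ) : ℝ) * L)) ^ 2 := by
  rw [← Real.exp_add, ← Real.exp_nat_mul, Real.exp_le_exp]
  push_cast
  have : (0 : ℝ) ≤ (C : ℝ) * L := by positivity
  linarith

theorem aux_e2 (C : ℕ) (L : ℝ) (hL : 0 ≤ L) :
    Real.exp (C * L) ≤ Real.exp (((C + 1 : ℕ) : ℝ) * L) := by
  rw [Real.exp_le_exp]
  push_cast
  linarith

theorem aux_e3 (C L : ℕ) :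
    Real.exp (((C + 1 : ℕ) : ℝ) * L) * Real.exp L ≤ Real.exp ((((C + 3) * L : ℕ) : ℝ)) := by
  rw [← Real.exp_add, Real.exp_le_exp]
  push_cast
  have : (0 : ℝ) ≤ (L : ℝ) := by positivity
  linarith

theorem aux_e4 (C L : ℕ) : -(((C : ℝ) + 4) * L) + (((C + 3) * L : ℕ) : ℝ) ≤ 0 := by
  push_cast
  have : (0 : ℝ) ≤ (L : ℝ) := by positivity
  linarith

theorem aux_p {b : ℝ} (hb : 0 < b) (C : ℕ) : b ^ (C + 1) * (1 / b) ^ C = b := by
  rw [pow_succ, one_div, inv_pow]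
  field_simp

theorem aux_m {x y : ℝ} (hx : 0 ≤ x) (hy : 1 ≤ y) : x ≤ x * y := le_mul_of_one_le_right hx hy

theorem glue_core (hF : Fam P X ν δ a m K u) {ρ : F d →L[ℝ] ℝ}
    (hρ : ∀ x, ρ x ≤ u x) {v' : F d} (hv' : ρ v' = 1) (hY : 0 < tr v h v')
    (hrate : ∀ κ : ℕ, ∃ C' : ℕ, ∃ L₀ : ℕ, ∀ L : ℕ, L₀ ≤ L → ∀ t : ℝ, 0 ≤ t →
      t ≤ Real.exp (κ * L) →
      mm P (X (bb m L)) (fl 1 (t • v')) ≤ t + (bb m L : ℕ) ^ C' * (√t + 1)) (C : ℕ) :
    ∃ L₁ : ℕ, ∀ (L : ℕ) (q : V d) (R : Set (Edge d)) (Λ : ℝ), L₁ ≤ L → R.Finite → 2 ^ L ≤ Λ →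
      Λ ^ 2 ≤ (bb m L : ℕ) ^ C * h (rv q) → n1 q ≤ Real.exp (C * L) →
      (∀ e ∈ R, ∀ x ∈ e.1, tr v h (rv x) ≤ (bb m L : ℕ) ^ C * Λ) →
      (1 / ((bb m L : ℕ) : ℝ)) ^ C ≤
        P.real {ω | T (cut R (bb m L) (cf (X (bb m L)) ω)) 0 q ≤ u (rv q) - Λ} →
      ρ (rv q) ≠ u (rv q) := by
  obtain ⟨C', L₂, hr'⟩ := hrate (C + 1)
  have hreg : Reg P (X 1) a := hF.reg 1 le_rfl
  have hHr : 0 < Helper51.GP.hr a := hr_pos hreg
  set H : ℝ := Helper51.GP.hr a with hH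
  set n0 : ℝ := nr v' with hn0
  have hn00 : 0 ≤ n0 := Helper79.GQ.nr_nonneg v'
  set Ct : ℝ := 1 + ‖h‖ * nr v with hCt
  have hCt0 : 0 ≤ Ct := by
    have := mul_nonneg (norm_nonneg h) (Helper79.GQ.nr_nonneg v)
    linarith
  set Y : ℝ := tr v h v' with hYd
  set c1 : ℝ := (3 + 2 * Ct * d) / Y with hc1
  have hc10 : 0 ≤ c1 := by positivity
  set A₃ : ℝ := C + 4 with hA₃
  set A₄ : ℝ := A₃ * c1 with hA₄
  have hA₃0 : 0 ≤ A₃ := by positivity
  have hA₄0 : 0 ≤ A₄ := by positivity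
  set A₁ : ℝ := ‖ρ‖ * d + |K| + 3 * d with hA₁
  have hA₁0 : 0 ≤ A₁ := by positivity
  set Q : ℝ := A₁ + 1 + 2 * (A₄ + 1) + 2 + 8 * A₃ * ((H + 1) * (A₄ * n0 + 2 * d + 1)) with hQ
  obtain ⟨L₃, h3⟩ := ev_num m (2 * (C' + 3 * C + 5)) (Q ^ 2)
  obtain ⟨L₄, h4⟩ := ev_num m (5 * C + 2) (A₄ ^ 2 * ‖h‖)
  obtain ⟨L₅, h5⟩ := ev_num m 0 (1 + n0 + d)
  refine ⟨max (max L₂ L₃) (max (max L₄ L₅) ((C + 3) ^ m + 1)), ?_⟩
  intro L q R Λ hL hRf hΛ hΛ2 hq hR hp hρq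
  have hL2 : L₂ ≤ L := (le_max_left _ _).trans ((le_max_left _ _).trans hL)
  have hL3 : L₃ ≤ L := (le_max_right _ _).trans ((le_max_left _ _).trans hL)
  have hL4 : L₄ ≤ L :=
    (le_max_left _ _).trans ((le_max_left _ _).trans ((le_max_right _ _).trans hL))
  have hL5 : L₅ ≤ L :=
    (le_max_right _ _).trans ((le_max_left _ _).trans ((le_max_right _ _).trans hL))
  have hL6 : (C + 3) ^ m + 1 ≤ L := (le_max_right _ _).trans ((le_max_right _ _).trans hL)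
  have hL1 : 1 ≤ L := by omega
  have g3 := h3 L hL3
  have g4 := h4 L hL4
  have g5 := h5 L hL5
  rw [pow_zero, mul_one] at g5
  have h2e := two_pow_le_exp L
  have hbb1 : 1 ≤ bb m L := Nat.one_le_pow _ _ (by omega)
  have hLb : L ≤ bb m L := Nat.le_self_pow (by omega) L
  have hE := hF.env (bb m L) hbb1
  have hrg := hF.reg (bb m L) hbb1
  set b : ℝ := ((bb m L : ℕ) : ℝ) with hb
  have hb1 : 1 ≤ b := by rw [hb]; exact_mod_cast hbb1
  have hb0 : 0 < b := by linarith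
  have hLb' : (L : ℝ) ≤ b := by rw [hb]; exact_mod_cast hLb
  have h2L : (1 : ℝ) ≤ 2 ^ L := one_le_pow₀ (by norm_num)
  have hΛ1 : 1 ≤ Λ := h2L.trans hΛ
  have hΛ0 : 0 < Λ := by linarith
  have hbC : 1 ≤ b ^ C := one_le_pow₀ hb1
  have hbCΛ : 1 ≤ b ^ C * Λ := one_le_mul_of_one_le_of_one_le hbC hΛ1
  -- the spacing
  set w : ℝ := (2 * (b ^ C * Λ) + 2 * Ct * d + 1) / Y with hw
  have hw0 : 0 ≤ w := by positivity
  have hwY : w * Y = 2 * (b ^ C * Λ) + 2 * Ct * d + 1 := by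
    rw [hw, div_mul_cancel₀ _ hY.ne']
  have hw1 : w ≤ c1 * (b ^ C * Λ) := by
    rw [hw, hc1]
    exact aux_w hbCΛ (by positivity) hY
  set Jn : ℕ := (C + 4) * (bb m L) ^ (C + 1) with hJn
  have hJr : (Jn : ℝ) = A₃ * b ^ (C + 1) := by
    rw [hJn, hA₃, hb]; push_cast; ring
  have hJ0 : (0 : ℝ) ≤ Jn := Nat.cast_nonneg _
  have hJw : (Jn : ℝ) * w ≤ A₄ * b ^ (2 * C + 1) * Λ := by
    calc (Jn : ℝ) * w ≤ Jn * (c1 * (b ^ C * Λ)) := by gcongr
      _ = A₄ * b ^ (2 * C + 1) * Λ := by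
        rw [hJr, hA₄]
        have : b ^ (2 * C + 1) = b ^ (C + 1) * b ^ C := by rw [← pow_add]; ring_nf
        rw [this]; ring
  have hJw0 : 0 ≤ (Jn : ℝ) * w := mul_nonneg hJ0 hw0
  have hexpC : (1 : ℝ) ≤ Real.exp (C * L) := Real.one_le_exp (by positivity)
  -- `J w` is not too large
  have hJwe : (Jn : ℝ) * w ≤ Real.exp (((C + 1 : ℕ) : ℝ) * L) := by
    have e1 : ((Jn : ℝ) * w) ^ 2 ≤ (Real.exp (((C + 1 : ℕ) : ℝ) * L)) ^ 2 := by
      have e2 : ((Jn : ℝ) * w) ^ 2 ≤ (A₄ * b ^ (2 * C + 1) * Λ) ^ 2 := by gcongr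
      have e3 : h (rv q) ≤ ‖h‖ * Real.exp (C * L) := by
        have e4 := abs_apply_le h (rv q)
        have e5 : nr (rv q) = n1 q := rfl
        rw [e5] at e4
        exact ((le_abs_self _).trans e4).trans (mul_le_mul_of_nonneg_left hq (norm_nonneg h))
      have e6 : (A₄ * b ^ (2 * C + 1) * Λ) ^ 2 ≤
          (A₄ ^ 2 * ‖h‖ * b ^ (5 * C + 2)) * Real.exp (C * L) := by
        calc (A₄ * b ^ (2 * C + 1) * Λ) ^ 2 = A₄ ^ 2 * (b ^ (2 * C + 1)) ^ 2 * Λ ^ 2 := by ring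
          _ ≤ A₄ ^ 2 * (b ^ (2 * C + 1)) ^ 2 * (b ^ C * h (rv q)) := by gcongr
          _ ≤ A₄ ^ 2 * (b ^ (2 * C + 1)) ^ 2 * (b ^ C * (‖h‖ * Real.exp (C * L))) := by gcongr
          _ = _ := by
            have : b ^ (5 * C + 2) = (b ^ (2 * C + 1)) ^ 2 * b ^ C := by
              rw [← pow_mul, ← pow_add]; ring_nf
            rw [this]; ring
      have e7 : (A₄ ^ 2 * ‖h‖ * b ^ (5 * C + 2)) * Real.exp (C * L) ≤
          Real.exp L * Real.exp (C * L) :=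
        mul_le_mul_of_nonneg_right (g4.le.trans h2e) (Real.exp_pos _).le
      have e8 := aux_e1 C L (Nat.cast_nonneg L)
      exact e2.trans (e6.trans (e7.trans e8))
    exact le_of_sq_le_sq e1 (Real.exp_pos _).le
  -- the points
  set z : ℕ → V d := fun j => fl 1 (((j : ℝ) * w) • v') with hz
  have hz1 : ∀ j ≤ Jn, n1 (z j) ≤ Jn * w * n0 + d := by
    intro j hj
    have e1 := n1_fl_le 1 (((j : ℝ) * w) • v')
    rw [Helper79.GQ.nr_smul, Nat.cast_one, one_mul, abs_of_nonneg (by positivity)] at e1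
    have e2 : (j : ℝ) ≤ Jn := by exact_mod_cast hj
    have e3 : (j : ℝ) * w * nr v' ≤ Jn * w * n0 := by gcongr
    exact e1.trans (by linarith)
  have hdif : ∀ j ≤ Jn, nr (rv (z Jn) - rv (z j) - (((Jn : ℝ) - j) * w) • v') ≤ 2 * d := by
    intro j hj
    have e1 := nr_fl1 (((Jn : ℝ) * w) • v')
    have e2 := nr_fl1 (((j : ℝ) * w) • v')
    have e3 : rv (z Jn) - rv (z j) - (((Jn : ℝ) - j) * w) • v' =
        (rv (z Jn) - ((Jn : ℝ) * w) • v') + -(rv (z j) - ((j : ℝ) * w) • v') := by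
      rw [sub_mul, sub_smul]; abel
    rw [e3]
    have e4 := Helper79.GQ.nr_add_le (rv (z Jn) - ((Jn : ℝ) * w) • v') (-(rv (z j) - ((j : ℝ) * w) • v'))
    rw [Helper79.GQ.nr_neg] at e4
    have e5 : nr (rv (z Jn) - ((Jn : ℝ) * w) • v') ≤ d := e1
    have e6 : nr (rv (z j) - ((j : ℝ) * w) • v') ≤ d := e2
    linarith
  have hz2 : ∀ j ≤ Jn, n1 (z Jn - z j) ≤ Jn * w * n0 + 2 * d := by
    intro j hj
    have e1 : n1 (z Jn - z j) = nr (rv (z Jn) - rv (z j)) := by rw [← rv_sub]; rfl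
    have e2 : rv (z Jn) - rv (z j) =
        (rv (z Jn) - rv (z j) - (((Jn : ℝ) - j) * w) • v') + (((Jn : ℝ) - j) * w) • v' := by
      abel
    have e3 : (j : ℝ) ≤ Jn := by exact_mod_cast hj
    have e4 : (0 : ℝ) ≤ ((Jn : ℝ) - j) * w := mul_nonneg (by linarith) hw0
    have e5 := Helper79.GQ.nr_add_le (rv (z Jn) - rv (z j) - (((Jn : ℝ) - j) * w) • v')
      ((((Jn : ℝ) - j) * w) • v')
    rw [← e2, Helper79.GQ.nr_smul, abs_of_nonneg e4] at e5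
    have e6 : ((Jn : ℝ) - j) * w * nr v' ≤ Jn * w * n0 := by
      have : (Jn : ℝ) - j ≤ Jn := by
        have : (0 : ℝ) ≤ j := Nat.cast_nonneg _
        linarith
      gcongr
    rw [e1]
    have e7 := hdif j hj
    linarith
  set M : ℝ := Jn * w + 2 * b ^ C' * (√(Jn * w) + 1) + 3 * d * b with hM
  have hMj : ∀ j < Jn, mm P (X (bb m L)) (z j) + mm P (X (bb m L)) (z Jn - z j) ≤ M := by
    intro j hj
    have e3 : (j : ℝ) ≤ Jn := by exact_mod_cast hj.le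
    have e4 : (0 : ℝ) ≤ ((Jn : ℝ) - j) * w := mul_nonneg (by linarith) hw0
    have e4' : (0 : ℝ) ≤ (j : ℝ) * w := by positivity
    have e5 : ((Jn : ℝ) - j) * w ≤ Jn * w := by
      have : (Jn : ℝ) - j ≤ Jn := by
        have : (0 : ℝ) ≤ j := Nat.cast_nonneg _
        linarith
      gcongr
    have e5' : (j : ℝ) * w ≤ Jn * w := by gcongr
    have e6 := hr' L hL2 ((j : ℝ) * w) e4' (e5'.trans hJwe)
    have e7 := hr' L hL2 (((Jn : ℝ) - j) * w) e4 (e5.trans hJwe)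
    have e8 := mm_lip hE (z Jn - z j) (fl 1 ((((Jn : ℝ) - j) * w) • v'))
    have e9 : n1 (z Jn - z j - fl 1 ((((Jn : ℝ) - j) * w) • v')) ≤ 3 * d := by
      have f1 : n1 (z Jn - z j - fl 1 ((((Jn : ℝ) - j) * w) • v')) =
          nr (rv (z Jn) - rv (z j) - rv (fl 1 ((((Jn : ℝ) - j) * w) • v'))) := by
        rw [← rv_sub, ← rv_sub]; rfl
      have f2 : rv (z Jn) - rv (z j) - rv (fl 1 ((((Jn : ℝ) - j) * w) • v')) =
          (rv (z Jn) - rv (z j) - (((Jn : ℝ) - j) * w) • v') +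
            -(rv (fl 1 ((((Jn : ℝ) - j) * w) • v')) - (((Jn : ℝ) - j) * w) • v') := by abel
      have f3 := Helper79.GQ.nr_add_le (rv (z Jn) - rv (z j) - (((Jn : ℝ) - j) * w) • v')
        (-(rv (fl 1 ((((Jn : ℝ) - j) * w) • v')) - (((Jn : ℝ) - j) * w) • v'))
      rw [← f2, Helper79.GQ.nr_neg] at f3
      have f4 := nr_fl1 ((((Jn : ℝ) - j) * w) • v')
      have f5 := hdif j hj.le
      rw [f1]
      linarith
    have e10 : b * n1 (z Jn - z j - fl 1 ((((Jn : ℝ) - j) * w) • v')) ≤ b * (3 * d) :=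
      mul_le_mul_of_nonneg_left e9 hb0.le
    have e11 : √((j : ℝ) * w) ≤ √(Jn * w) := Real.sqrt_le_sqrt e5'
    have e12 : √(((Jn : ℝ) - j) * w) ≤ √(Jn * w) := Real.sqrt_le_sqrt e5
    have e13 : b ^ C' * (√((j : ℝ) * w) + 1) ≤ b ^ C' * (√(Jn * w) + 1) := by gcongr
    have e14 : b ^ C' * (√(((Jn : ℝ) - j) * w) + 1) ≤ b ^ C' * (√(Jn * w) + 1) := by gcongr
    have e15 : mm P (X (bb m L)) (z j) ≤ (j : ℝ) * w + b ^ C' * (√((j : ℝ) * w) + 1) := e6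
    rw [hM]
    linarith
  have hM0 : 0 ≤ M := by rw [hM]; positivity
  -- the level is not negative
  have hp0 : (0 : ℝ) < (1 / b) ^ C := by positivity
  have hp1 : (1 / b) ^ C ≤ 1 := pow_le_one₀ (by positivity) (by rw [div_le_one hb0]; exact hb1)
  have hA0 : 0 ≤ u (rv q) - Λ := by
    by_contra hneg
    push Not at hneg
    have e1 : {ω | T (cut R b (cf (X (bb m L)) ω)) 0 q ≤ u (rv q) - Λ} = ∅ := by
      rw [Set.eq_empty_iff_forall_notMem]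
      intro ω hω
      have e2 := T_nonneg' (Helper51.NP.cut_bd (hE.cf_bd ω) le_rfl R) 0 q
      have e3 : T (cut R b (cf (X (bb m L)) ω)) 0 q ≤ u (rv q) - Λ := hω
      linarith
    rw [e1, measureReal_empty] at hp
    linarith
  -- the mean
  have hz3 : ∀ i < Jn, ∀ j < Jn, i ≠ j → Disjoint (sh (z i) '' R) (sh (z j) '' R) := by
    intro i _ j _ hij
    refine tubes_disjoint (W := b ^ C * Λ) (Ct := Ct) (Y := Y) rfl (fun x => tr_le_nr x) hCt0 hR ?_ ?_ i j hij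
    · rw [hwY]; linarith
    · rw [hwY]; positivity
  have main := glue_mean hE Jn hRf z hz3 q (u (rv q) - Λ) M ((1 / b) ^ C) hA0 hM0 hp1 hp hMj
  -- the positive parts
  have hsum : ∑ j ∈ Finset.range Jn,
      (∫ ω, max (T (cf (X (bb m L)) ω) 0 (z j) - mm P (X (bb m L)) (z j)) 0 ∂P +
        ∫ ω, max (T (cf (X (bb m L)) ω) (z j + q) (z Jn + q) -
          mm P (X (bb m L)) (z Jn - z j)) 0 ∂P) ≤
      Jn * (8 * √((H * b ^ 3 + 1) * (Jn * w * n0 + 2 * d + 1))) := by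
    have e1 : ∀ j ∈ Finset.range Jn,
        (∫ ω, max (T (cf (X (bb m L)) ω) 0 (z j) - mm P (X (bb m L)) (z j)) 0 ∂P +
        ∫ ω, max (T (cf (X (bb m L)) ω) (z j + q) (z Jn + q) -
          mm P (X (bb m L)) (z Jn - z j)) 0 ∂P) ≤
        8 * √((H * b ^ 3 + 1) * (Jn * w * n0 + 2 * d + 1)) := by
      intro j hj
      rw [Finset.mem_range] at hj
      have e2 := pos_part hE hrg hb1 0 (z j)
      have e3 := pos_part hE hrg hb1 (z j + q) (z Jn + q)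
      rw [sub_zero] at e2
      rw [add_sub_add_right_eq_sub] at e3
      have e4 := hz1 j hj.le
      have e5 := hz2 j hj.le
      have e6 : √((H * b ^ 3 + 1) * (n1 (z j) + 1)) ≤
          √((H * b ^ 3 + 1) * (Jn * w * n0 + 2 * d + 1)) := by
        refine Real.sqrt_le_sqrt ?_
        have : (0 : ℝ) ≤ d := Nat.cast_nonneg _
        have h0 : 0 ≤ H * b ^ 3 + 1 := by positivity
        exact mul_le_mul_of_nonneg_left (by linarith) h0
      have e7 : √((H * b ^ 3 + 1) * (n1 (z Jn - z j) + 1)) ≤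
          √((H * b ^ 3 + 1) * (Jn * w * n0 + 2 * d + 1)) := by
        refine Real.sqrt_le_sqrt ?_
        have h0 : 0 ≤ H * b ^ 3 + 1 := by positivity
        exact mul_le_mul_of_nonneg_left (by linarith) h0
      linarith
    refine (Finset.sum_le_sum e1).trans ?_
    rw [Finset.sum_const, Finset.card_range, nsmul_eq_mul]
  -- the end point
  have hn : n1 (q + z Jn) ≤ Real.exp ((((C + 3) * L : ℕ) : ℝ)) := by
    have e1 := n1_add_le q (z Jn)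
    have e2 := hz1 Jn le_rfl
    have e3 := aux_e2 C L (Nat.cast_nonneg L)
    have e4 : (1 : ℝ) ≤ Real.exp (((C + 1 : ℕ) : ℝ) * L) := Real.one_le_exp (by positivity)
    have e5 : (Jn : ℝ) * w * n0 ≤ Real.exp (((C + 1 : ℕ) : ℝ) * L) * n0 :=
      mul_le_mul_of_nonneg_right hJwe hn00
    have e6 : (d : ℝ) ≤ d * Real.exp (((C + 1 : ℕ) : ℝ) * L) := aux_m (Nat.cast_nonneg d) e4
    calc n1 (q + z Jn) ≤ Real.exp (((C + 1 : ℕ) : ℝ) * L) * (1 + n0 + d) := by linarith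
      _ ≤ Real.exp (((C + 1 : ℕ) : ℝ) * L) * Real.exp L :=
          mul_le_mul_of_nonneg_left (g5.le.trans h2e) (Real.exp_pos _).le
      _ ≤ _ := aux_e3 C L
  have hlow := hF.low ((C + 3) * L) (bb m L) (Nat.mul_pos (by omega) (by omega)) (by
    rw [mul_pow]
    unfold bb
    rw [pow_succ, mul_comm]
    exact Nat.mul_le_mul_left _ (by omega)) (q + z Jn) hn
  -- the lower bound for the norm
  have hlow2 : u (rv q) + Jn * w - ‖ρ‖ * d ≤ u (rv (q + z Jn)) := by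
    have e1 := hρ (rv (q + z Jn))
    rw [rv_add', map_add, hρq] at e1
    have e2 : ρ (rv (z Jn)) = Jn * w + ρ (rv (z Jn) - ((Jn : ℝ) * w) • v') := by
      rw [map_sub, map_smul, hv', smul_eq_mul, mul_one]; ring
    have e3 := abs_apply_le ρ (rv (z Jn) - ((Jn : ℝ) * w) • v')
    have e4 : nr (rv (z Jn) - ((Jn : ℝ) * w) • v') ≤ d := nr_fl1 (((Jn : ℝ) * w) • v')
    have e5 : ‖ρ‖ * nr (rv (z Jn) - ((Jn : ℝ) * w) • v') ≤ ‖ρ‖ * d :=
      mul_le_mul_of_nonneg_left e4 (norm_nonneg ρ)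
    have e6 := neg_abs_le (ρ (rv (z Jn) - ((Jn : ℝ) * w) • v'))
    rw [rv_add']
    linarith
  -- the bad event
  have hbad : (1 - (1 / b) ^ C) ^ Jn * (b * n1 (q + z Jn)) ≤ b := by
    have e1 : (1 - (1 / b) ^ C) ^ Jn ≤ Real.exp (-((C + 4) * L)) := by
      have e2 : 1 - (1 / b) ^ C ≤ Real.exp (-(1 / b) ^ C) := by
        have := Real.add_one_le_exp (-(1 / b) ^ C)
        linarith
      have e3 : 0 ≤ 1 - (1 / b) ^ C := by linarith
      calc (1 - (1 / b) ^ C) ^ Jn ≤ (Real.exp (-(1 / b) ^ C)) ^ Jn := by gcongr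
        _ = Real.exp (Jn * -(1 / b) ^ C) := by rw [← Real.exp_nat_mul]
        _ ≤ _ := by
          rw [Real.exp_le_exp, hJr, hA₃]
          have e4 := aux_p hb0 C
          have e5 : (C + 4 : ℝ) * b ^ (C + 1) * -(1 / b) ^ C =
              -((C + 4) * (b ^ (C + 1) * (1 / b) ^ C)) := by ring
          rw [e5, e4]
          have e6 : (0 : ℝ) ≤ C + 4 := by positivity
          exact neg_le_neg (mul_le_mul_of_nonneg_left hLb' e6)
    have e2 : 0 ≤ n1 (q + z Jn) := n1_nonneg _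
    calc (1 - (1 / b) ^ C) ^ Jn * (b * n1 (q + z Jn))
        ≤ Real.exp (-((C + 4) * L)) * (b * Real.exp ((((C + 3) * L : ℕ) : ℝ))) := by gcongr
      _ = b * Real.exp (-((C + 4) * L) + (((C + 3) * L : ℕ) : ℝ)) := by rw [Real.exp_add]; ring
      _ ≤ b * 1 := by
          exact mul_le_mul_of_nonneg_left (Real.exp_le_one_iff.2 (aux_e4 C L)) hb0.le
      _ = b := mul_one b
  -- conclusion
  set s : ℝ := √Λ with hs
  have hs2 : s ^ 2 = Λ := Real.sq_sqrt hΛ0.le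
  have hs1 : 1 ≤ s := by rw [hs]; exact Real.one_le_sqrt.2 hΛ1
  have hfin : s ^ 2 ≤ A₁ * b + 1 * b + 2 * b ^ C' * (√(Jn * w) + 1) +
      Jn * (8 * √((H * b ^ 3 + 1) * (Jn * w * n0 + 2 * d + 1))) := by
    rw [hs2]
    have e1 : ‖ρ‖ * d ≤ ‖ρ‖ * d * b := aux_m (by positivity) hb1
    have e2 : K * b ≤ |K| * b := mul_le_mul_of_nonneg_right (le_abs_self K) hb0.le
    have e3 : A₁ * b = ‖ρ‖ * d * b + |K| * b + 3 * d * b := by rw [hA₁]; ring
    rw [hM] at main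
    linarith
  have hQb := final_num (k := C' + 3 * C + 5) (C := C) (C' := C') hb1 hs1 hA₁0 zero_le_one hA₃0
    hA₄0 hn00 hHr.le (Nat.cast_nonneg d) hJ0 hw0 (by rw [hs2]; exact hJw) hJr.le rfl hfin
  have e1 : Λ ≤ Q ^ 2 * b ^ (2 * (C' + 3 * C + 5)) := by
    calc Λ = s ^ 2 := hs2.symm
      _ ≤ (Q * b ^ (C' + 3 * C + 5)) ^ 2 := by
        have h0 : 0 ≤ s := by linarith
        gcongr
      _ = _ := by rw [mul_pow, ← pow_mul, mul_comm (C' + 3 * C + 5) 2]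
  linarith

end Pool.Agent.Helper72.GP
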