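import Pool.Agent.Helper51.NP.A

/-!
# GP-H2: many disjoint tubes
-/

set_option autoImplicit false

namespace Pool.Agent.Helper72.GP

open MeasureTheory ProbabilityTheory Filter Pool.Agent.Helper79.GR Pool.Agent.Helper79.GQ
open Pool.Agent.Helper51.NP

variable {Ω : Type*} [MeasurableSpace Ω] {P : Measure Ω} {d : ℕ} {X : Edge d → Ω → ℝ}
  {ν : Measure ℝ} {a b B : ℝ}

open Classical in
/-- extension of weights on the edges of `D` by `B` -/
noncomputable def ex (D : Finset (Edge d)) (B : ℝ) (c : D → ℝ) : Edge d → ℝ :=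
  fun e => if h : e ∈ D then c ⟨e, h⟩ else B

theorem measurable_ex (D : Finset (Edge d)) (B : ℝ) : Measurable (ex D B) := by
  refine measurable_pi_lambda _ fun e => ?_
  unfold ex
  by_cases he : e ∈ D
  · simp only [he, dite_true]
    exact measurable_pi_apply _
  · simp only [he, dite_false]
    exact measurable_const

theorem measurable_cut (S : Set (Edge d)) (B : ℝ) : Measurable (cut S B) := by
  classical
  refine measurable_pi_lambda _ fun e => ?_
  by_cases he : e ∈ S
  · have : (fun c : Edge d → ℝ => cut S B c e) = fun c => c e := by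
      funext c
      unfold cut
      exact Set.piecewise_eq_of_mem _ _ _ he
    rw [this]
    exact measurable_pi_apply _
  · have : (fun c : Edge d → ℝ => cut S B c e) = fun _ => B := by
      funext c
      unfold cut
      exact Set.piecewise_eq_of_notMem _ _ _ he
    rw [this]
    exact measurable_const

theorem cut_ex {S : Set (Edge d)} {D : Finset (Edge d)} (hS : S ⊆ D) (B : ℝ) (c : Edge d → ℝ) :
    cut S B (ex D B fun i => c i) = cut S B c := by
  classical
  funext e
  unfold cut
  by_cases he : e ∈ S
  · rw [Set.piecewise_eq_of_mem _ _ _ he, Set.piecewise_eq_of_mem _ _ _ he]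
    unfold ex
    rw [dif_pos (Finset.mem_coe.1 (hS he))]
  · rw [Set.piecewise_eq_of_notMem _ _ _ he, Set.piecewise_eq_of_notMem _ _ _ he]

/-- functions of the weights in disjoint finite sets of edges: no success in `J` trials -/
theorem prob_none (h : Env P X ν a b) (J : ℕ) (S : ℕ → Set (Edge d)) (hfin : ∀ j, (S j).Finite)
    (hS : ∀ i < J, ∀ j < J, i ≠ j → Disjoint (S i) (S j)) (x y : ℕ → V d) (B A p : ℝ)
    (hp1 : p ≤ 1)
    (hp : ∀ j < J, p ≤ P.real {ω | T (cut (S j) B (cf X ω)) (x j) (y j) ≤ A}) :
    P.real {ω | ∀ j < J, A < T (cut (S j) B (cf X ω)) (x j) (y j)} ≤ (1 - p) ^ J := by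
  classical
  have := h.prob
  have key : ∀ k ≤ J, P.real {ω | ∀ j < k, A < T (cut (S j) B (cf X ω)) (x j) (y j)} ≤
      (1 - p) ^ k := by
    intro k
    induction k with
    | zero =>
      intro _
      rw [pow_zero]
      exact measureReal_le_one
    | succ k ih =>
      intro hk
      have ih' := ih (by omega)
      set D : Finset (Edge d) := (Finset.range k).biUnion fun j => (hfin j).toFinset with hD
      set E : Finset (Edge d) := (hfin k).toFinset with hE
      have hDE : Disjoint D E := by
        rw [hD, Finset.disjoint_biUnion_left]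
        intro j hj
        rw [Finset.mem_range] at hj
        have h1 := hS j (by omega) k (by omega) (by omega)
        rw [hE, ← Finset.disjoint_coe, Set.Finite.coe_toFinset, Set.Finite.coe_toFinset]
        exact h1
      have hi := iIndepFun.indepFun_finset D E hDE h.indep h.meas
      have hSD : ∀ j < k, S j ⊆ D := by
        intro j hj e he
        rw [Finset.mem_coe, hD, Finset.mem_biUnion]
        exact ⟨j, Finset.mem_range.2 hj, (hfin j).mem_toFinset.2 he⟩
      have hSE : S k ⊆ E := by
        intro e he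
        exact (hfin k).mem_toFinset.2 he
      set U : Set (D → ℝ) := {c | ∀ j < k, A < T (cut (S j) B (ex D B c)) (x j) (y j)} with hU
      set W : Set (E → ℝ) := {c | A < T (cut (S k) B (ex E B c)) (x k) (y k)} with hW
      have mU : MeasurableSet U := by
        have : U = ⋂ j ∈ Finset.range k, {c | A < T (cut (S j) B (ex D B c)) (x j) (y j)} := by
          ext c
          simp [hU]
        rw [this]
        refine Finset.measurableSet_biInter _ fun j _ => ?_
        exact measurableSet_lt measurable_const
          ((measurable_T_cfg _ _).comp ((measurable_cut _ _).comp (measurable_ex _ _)))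
      have mW : MeasurableSet W := measurableSet_lt measurable_const
          ((measurable_T_cfg _ _).comp ((measurable_cut _ _).comp (measurable_ex _ _)))
      have e1 : {ω | ∀ j < k, A < T (cut (S j) B (cf X ω)) (x j) (y j)} =
          (fun ω (i : D) => X i ω) ⁻¹' U := by
        ext ω
        rw [Set.mem_preimage]
        refine forall_congr' fun j => forall_congr' fun hj => ?_
        have := cut_ex (hSD j hj) B (cf X ω)
        show _ ↔ A < T (cut (S j) B (ex D B fun i => cf X ω i)) (x j) (y j)
        rw [this]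
      have e2 : {ω | A < T (cut (S k) B (cf X ω)) (x k) (y k)} =
          (fun ω (i : E) => X i ω) ⁻¹' W := by
        ext ω
        rw [Set.mem_preimage]
        have := cut_ex hSE B (cf X ω)
        show _ ↔ A < T (cut (S k) B (ex E B fun i => cf X ω i)) (x k) (y k)
        rw [this]
        rfl
      have e3 : {ω | ∀ j < k + 1, A < T (cut (S j) B (cf X ω)) (x j) (y j)} =
          {ω | ∀ j < k, A < T (cut (S j) B (cf X ω)) (x j) (y j)} ∩
          {ω | A < T (cut (S k) B (cf X ω)) (x k) (y k)} := by
        ext ω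
        constructor
        · intro hω
          exact ⟨fun j hj => hω j (by omega), hω k (by omega)⟩
        · rintro ⟨h1, h2⟩ j hj
          rcases Nat.lt_succ_iff_lt_or_eq.1 hj with h3 | rfl
          · exact h1 j h3
          · exact h2
      have h4 : P.real {ω | A < T (cut (S k) B (cf X ω)) (x k) (y k)} ≤ 1 - p := by
        have h5 := hp k (by omega)
        have h6 : {ω | A < T (cut (S k) B (cf X ω)) (x k) (y k)} =
            {ω | T (cut (S k) B (cf X ω)) (x k) (y k) ≤ A}ᶜ := by
          ext ω
          simp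
        rw [h6, measureReal_compl (measurableSet_le (measurable_Tc h _ _ _ _) measurable_const),
          probReal_univ]
        linarith
      rw [e3]
      have h7 : P.real ({ω | ∀ j < k, A < T (cut (S j) B (cf X ω)) (x j) (y j)} ∩
          {ω | A < T (cut (S k) B (cf X ω)) (x k) (y k)}) =
          P.real {ω | ∀ j < k, A < T (cut (S j) B (cf X ω)) (x j) (y j)} *
          P.real {ω | A < T (cut (S k) B (cf X ω)) (x k) (y k)} := by
        rw [e1, e2]
        have h8 := hi.measure_inter_preimage_eq_mul U W mU mW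
        simp only [Measure.real, h8, ENNReal.toReal_mul]
      rw [h7, pow_succ]
      exact mul_le_mul ih' h4 measureReal_nonneg (pow_nonneg (by linarith) _)
  exact key J le_rfl

/-- shift of a tube -/
theorem prob_shift (h : Env P X ν a b) (S : Set (Edge d)) (v q : V d) (B A : ℝ) :
    P.real {ω | T (cut (sh v '' S) B (cf X ω)) v (v + q) ≤ A} =
      P.real {ω | T (cut S B (cf X ω)) 0 q ≤ A} := by
  classical
  have m0 : Measurable fun c : Edge d → ℝ => T (cut S B c) 0 q :=
    (measurable_T_cfg _ _).comp (measurable_cut _ _)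
  have hm : MeasurableSet {c : Edge d → ℝ | T (cut S B c) 0 q ≤ A} :=
    measurableSet_le m0 measurable_const
  have e0 : ∀ c : Edge d → ℝ, T (cut (sh v '' S) B c) v (v + q) =
      T (cut S B fun e => c (sh v e)) 0 q := by
    intro c
    have h1 := T_shift (cut (sh v '' S) B c) v 0 q
    rw [zero_add, add_comm q v] at h1
    rw [← h1]
    congr 1
    funext e
    unfold cut
    by_cases he : e ∈ S
    · rw [Set.piecewise_eq_of_mem _ _ _ he, Set.piecewise_eq_of_mem _ _ _ (Set.mem_image_of_mem _ he)]
    · rw [Set.piecewise_eq_of_notMem _ _ _ he, Set.piecewise_eq_of_notMem]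
      rintro ⟨e', he', h2⟩
      exact he (sh_injective v h2 ▸ he')
  have e1 : {ω | T (cut (sh v '' S) B (cf X ω)) v (v + q) ≤ A} =
      (fun ω e => X (sh v e) ω) ⁻¹' {c : Edge d → ℝ | T (cut S B c) 0 q ≤ A} := by
    ext ω
    show T (cut (sh v '' S) B (cf X ω)) v (v + q) ≤ A ↔ T (cut S B fun e => cf X ω (sh v e)) 0 q ≤ A
    rw [e0]
  have e2 : {ω | T (cut S B (cf X ω)) 0 q ≤ A} =
      (fun ω e => X e ω) ⁻¹' {c : Edge d → ℝ | T (cut S B c) 0 q ≤ A} := rfl
  rw [e1, e2, ← map_measureReal_apply (measurable_pi_iff.2 fun e => h.meas (sh v e)) hm,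
    ← map_measureReal_apply (measurable_pi_iff.2 h.meas) hm, map_shift h v]

/-- the expected passage time is small if many disjoint tubes have a chance to be fast -/
theorem glue_mean (h : Env P X ν a b) (J : ℕ) {R : Set (Edge d)} (hR : R.Finite) (z : ℕ → V d)
    (hz : ∀ i < J, ∀ j < J, i ≠ j → Disjoint (sh (z i) '' R) (sh (z j) '' R)) (q : V d)
    (A M p : ℝ) (hA : 0 ≤ A) (hM : 0 ≤ M) (hp1 : p ≤ 1)
    (hp : p ≤ P.real {ω | T (cut R b (cf X ω)) 0 q ≤ A})
    (hMj : ∀ j < J, mm P X (z j) + mm P X (z J - z j) ≤ M) :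
    mm P X (q + z J) ≤ A + M + ∑ j ∈ Finset.range J,
      (∫ ω, max (T (cf X ω) 0 (z j) - mm P X (z j)) 0 ∂P +
        ∫ ω, max (T (cf X ω) (z j + q) (z J + q) - mm P X (z J - z j)) 0 ∂P) +
      (1 - p) ^ J * (b * n1 (q + z J)) := by
  classical
  have := h.prob
  set G : Set Ω := {ω | ∀ j < J, A < T (cut (sh (z j) '' R) b (cf X ω)) (z j) (z j + q)} with hG
  have mG : MeasurableSet G := by
    have : G = ⋂ j ∈ Finset.range J,
        {ω | A < T (cut (sh (z j) '' R) b (cf X ω)) (z j) (z j + q)} := by
      ext ω
      simp [hG]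
    rw [this]
    exact Finset.measurableSet_biInter _ fun j _ =>
      measurableSet_lt measurable_const (measurable_Tc h _ _ _ _)
  have hPG : P.real G ≤ (1 - p) ^ J := by
    refine prob_none h J (fun j => sh (z j) '' R) (fun j => hR.image _) hz z
      (fun j => z j + q) b A p hp1 fun j _ => ?_
    rw [prob_shift h]
    exact hp
  set F : ℕ → Ω → ℝ := fun j ω => max (T (cf X ω) 0 (z j) - mm P X (z j)) 0 with hF
  set F' : ℕ → Ω → ℝ := fun j ω =>
    max (T (cf X ω) (z j + q) (z J + q) - mm P X (z J - z j)) 0 with hF'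
  have iF : ∀ j, Integrable (F j) P := fun j =>
    ((integrable_T h _ _).sub (integrable_const _)).sup (integrable_const _)
  have iF' : ∀ j, Integrable (F' j) P := fun j =>
    ((integrable_T h _ _).sub (integrable_const _)).sup (integrable_const _)
  have F0 : ∀ j ω, 0 ≤ F j ω := fun j ω => le_max_right _ _
  have F'0 : ∀ j ω, 0 ≤ F' j ω := fun j ω => le_max_right _ _
  have hn : (0 : ℝ) ≤ n1 (q + z J) := n1_nonneg _
  -- pointwise
  have hpt : ∀ ω, T (cf X ω) 0 (q + z J) ≤ A + M + ∑ j ∈ Finset.range J, (F j ω + F' j ω) +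
      G.indicator (fun _ => b * n1 (q + z J)) ω := by
    intro ω
    have hb := h.cf_bd ω
    have hS0 : 0 ≤ ∑ j ∈ Finset.range J, (F j ω + F' j ω) :=
      Finset.sum_nonneg fun j _ => add_nonneg (F0 j ω) (F'0 j ω)
    by_cases hω : ω ∈ G
    · rw [Set.indicator_of_mem hω]
      have h1 := T_le hb 0 (q + z J)
      rw [sub_zero] at h1
      linarith
    · rw [Set.indicator_of_notMem hω, add_zero]
      have h1 : ∃ j < J, T (cut (sh (z j) '' R) b (cf X ω)) (z j) (z j + q) ≤ A := by
        by_contra hc
        push Not at hc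
        exact hω hc
      obtain ⟨j, hj, h2⟩ := h1
      have h3 := T_le_cut hb le_rfl (sh (z j) '' R) (z j) (z j + q)
      have h4 := T_triangle hb 0 (z j) (z J + q)
      have h5 := T_triangle hb (z j) (z j + q) (z J + q)
      have h6 : T (cf X ω) 0 (z j) ≤ mm P X (z j) + F j ω := by
        have := le_max_left (T (cf X ω) 0 (z j) - mm P X (z j)) 0
        have e : F j ω = max (T (cf X ω) 0 (z j) - mm P X (z j)) 0 := rfl
        rw [e]
        linarith
      have h7 : T (cf X ω) (z j + q) (z J + q) ≤ mm P X (z J - z j) + F' j ω := by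
        have := le_max_left (T (cf X ω) (z j + q) (z J + q) - mm P X (z J - z j)) 0
        have e : F' j ω = max (T (cf X ω) (z j + q) (z J + q) - mm P X (z J - z j)) 0 := rfl
        rw [e]
        linarith
      have h8 : F j ω + F' j ω ≤ ∑ j ∈ Finset.range J, (F j ω + F' j ω) :=
        Finset.single_le_sum (f := fun j => F j ω + F' j ω)
          (fun j _ => add_nonneg (F0 j ω) (F'0 j ω)) (Finset.mem_range.2 hj)
      have h9 := hMj j hj
      rw [add_comm q (z J)]
      linarith
  have i1 : Integrable (fun ω => ∑ j ∈ Finset.range J, (F j ω + F' j ω)) P :=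
    integrable_finsetSum _ fun j _ => (iF j).add (iF' j)
  have i3 : Integrable (fun ω => A + M + ∑ j ∈ Finset.range J, (F j ω + F' j ω)) P :=
    (integrable_const _).add i1
  have i2 : Integrable (G.indicator fun _ => b * n1 (q + z J)) P :=
    (integrable_const _).indicator mG
  have h1 : mm P X (q + z J) ≤ ∫ ω, (A + M + ∑ j ∈ Finset.range J, (F j ω + F' j ω) +
      G.indicator (fun _ => b * n1 (q + z J)) ω) ∂P :=
    integral_mono (integrable_T h _ _) (i3.add i2) hpt
  rw [integral_add i3 i2, integral_add (integrable_const _) i1,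
    integral_const, probReal_univ, one_smul, integral_indicator_const _ mG, smul_eq_mul] at h1
  have h2 : ∫ ω, ∑ j ∈ Finset.range J, (F j ω + F' j ω) ∂P =
      ∑ j ∈ Finset.range J, (∫ ω, F j ω ∂P + ∫ ω, F' j ω ∂P) := by
    have iS : ∀ j, Integrable (fun ω => F j ω + F' j ω) P := fun j => (iF j).add (iF' j)
    rw [integral_finsetSum _ fun j _ => iS j]
    exact Finset.sum_congr rfl fun j _ => integral_add (iF j) (iF' j)
  rw [h2] at h1
  refine h1.trans ?_
  have hbn : 0 ≤ b * n1 (q + z J) := by
    obtain ⟨ω⟩ := nonempty_of_isProbabilityMeasure P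
    have h3 := T_le (h.cf_bd ω) 0 (q + z J)
    have h4 := le_T (h.cf_bd ω) 0 (q + z J)
    rw [sub_zero] at h3 h4
    have h5 : 0 ≤ a * n1 (q + z J) := mul_nonneg h.apos.le hn
    linarith
  have h3 : P.real G * (b * n1 (q + z J)) ≤ (1 - p) ^ J * (b * n1 (q + z J)) :=
    mul_le_mul_of_nonneg_right hPG hbn
  linarith

end Pool.Agent.Helper72.GP
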