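import Pool.Agent.Helper51.GP.B
import Pool.Agent.Helper51.NP.D
import Pool.Agent.Helper72.GP.Tubes

/-!
# GP-H2: gluing along the face
-/

set_option autoImplicit false

namespace Pool.Agent.Helper72.GP

open MeasureTheory ProbabilityTheory Filter Pool.Agent.Helper79.GR Pool.Agent.Helper79.GQ
open Pool.Agent.Helper51.NP Pool.Agent.Helper51.GP
open scoped Topology

theorem ev_num (m k : ℕ) (c : ℝ) :
    ∃ L₀ : ℕ, ∀ L : ℕ, L₀ ≤ L → c * ((bb m L : ℕ) : ℝ) ^ k < 2 ^ L := by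
  have h1 := tendsto_pow_const_div_const_pow_of_one_lt ((m + 1) * k) (one_lt_two (α := ℝ))
  have h2 : ∀ᶠ n : ℕ in atTop, (n : ℝ) ^ ((m + 1) * k) / 2 ^ n < 1 / (|c| + 1) :=
    h1.eventually (gt_mem_nhds (by positivity))
  obtain ⟨L₀, hL⟩ := eventually_atTop.1 h2
  refine ⟨L₀, fun L h3 => ?_⟩
  have h4 := hL L h3
  rw [div_lt_div_iff₀ (by positivity) (by positivity), one_mul] at h4
  have h5 : ((bb m L : ℕ) : ℝ) ^ k = (L : ℝ) ^ ((m + 1) * k) := by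
    unfold bb
    rw [Nat.cast_pow, ← pow_mul]
  rw [h5]
  have h6 : (0 : ℝ) ≤ (L : ℝ) ^ ((m + 1) * k) := by positivity
  have h7 : c ≤ |c| + 1 := by linarith [le_abs_self c]
  nlinarith [mul_le_mul_of_nonneg_right h7 h6]

section

variable {Ω : Type*} [MeasurableSpace Ω] {P : Measure Ω} {d : ℕ}

theorem abs_apply_le (f : F d →L[ℝ] ℝ) (x : F d) : |f x| ≤ ‖f‖ * nr x := by
  have h3 := f.le_opNorm x
  rw [Real.norm_eq_abs] at h3
  refine h3.trans (mul_le_mul_of_nonneg_left ?_ (norm_nonneg f))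
  rw [pi_norm_le_iff_of_nonneg (Pool.Agent.Helper19.PG.nr_nonneg x)]
  intro i
  rw [Real.norm_eq_abs]
  exact Finset.single_le_sum (f := fun i => |x i|) (fun i _ => abs_nonneg (x i))
    (Finset.mem_univ i)

/-- the vertex of `t v'` -/
theorem nr_fl1 (x : F d) : nr (rv (fl 1 x) - x) ≤ d := by
  have := nr_fl 1 x
  simpa using this

theorem mm_lip {X : Edge d → Ω → ℝ} {ν : Measure ℝ} {a b : ℝ} (h : Env P X ν a b) (x y : V d) :
    mm P X x ≤ mm P X y + b * n1 (x - y) := by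
  have hS := subM_mm h
  have h1 := hS.add y (x - y)
  rw [add_sub_cancel] at h1
  have h2 := hS.hi (x - y)
  linarith

end

section

variable {Ω : Type*} [MeasurableSpace Ω] {P : Measure Ω} {d : ℕ} {X : ℕ → Edge d → Ω → ℝ}
  {ν : ℕ → Measure ℝ} {δ : ℕ → ℝ} {a K s : ℝ} {m C : ℕ} {u : F d → ℝ} {v : F d}
  {h : F d →L[ℝ] ℝ}

/-- the tubes at the points `z j` are disjoint -/
theorem tubes_disjoint {R : Set (Edge d)} {W w Y Ct : ℝ} {v' : F d} (hY : tr v h v' = Y)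
    (hCt : ∀ x : F d, tr v h x ≤ Ct * nr x) (hCt0 : 0 ≤ Ct)
    (hR : ∀ e ∈ R, ∀ x ∈ e.1, tr v h (rv x) ≤ W) (hw : 2 * W + 2 * Ct * d < w * Y)
    (hwY : 0 ≤ w * Y) (i j : ℕ) (hij : i ≠ j) :
    Disjoint (sh (fl 1 (((i : ℝ) * w) • v')) '' R) (sh (fl 1 (((j : ℝ) * w) • v')) '' R) := by
  rw [Set.disjoint_left]
  rintro e ⟨e1, h1, rfl⟩ ⟨e2, h2, h3⟩
  -- a common vertex
  obtain ⟨x, hx⟩ : ∃ x, x ∈ (sh (fl 1 (((i : ℝ) * w) • v')) e1).1 := by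
    induction (sh (fl 1 (((i : ℝ) * w) • v')) e1).1 with
    | _ p q => exact ⟨p, Sym2.mem_mk_left p q⟩
  have hx2 : x ∈ (sh (fl 1 (((j : ℝ) * w) • v')) e2).1 := by rw [h3]; exact hx
  have m1 : ∃ y ∈ e1.1, y + fl 1 (((i : ℝ) * w) • v') = x := by
    have : x ∈ e1.1.map fun y => y + fl 1 (((i : ℝ) * w) • v') := hx
    rwa [Sym2.mem_map] at this
  have m2 : ∃ y ∈ e2.1, y + fl 1 (((j : ℝ) * w) • v') = x := by
    have : x ∈ e2.1.map fun y => y + fl 1 (((j : ℝ) * w) • v') := hx2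
    rwa [Sym2.mem_map] at this
  obtain ⟨y1, hy1, e3⟩ := m1
  obtain ⟨y2, hy2, e4⟩ := m2
  have t1 := hR e1 h1 y1 hy1
  have t2 := hR e2 h2 y2 hy2
  have e5 : rv y1 + rv (fl 1 (((i : ℝ) * w) • v')) = rv y2 + rv (fl 1 (((j : ℝ) * w) • v')) := by
    rw [← rv_add', ← rv_add', e3, e4]
  have n1' := nr_fl1 (((i : ℝ) * w) • v')
  have n2' := nr_fl1 (((j : ℝ) * w) • v')
  set a1 := rv (fl 1 (((i : ℝ) * w) • v')) - ((i : ℝ) * w) • v' with ha1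
  set a2 := rv (fl 1 (((j : ℝ) * w) • v')) - ((j : ℝ) * w) • v' with ha2
  have e6 : (((i : ℝ) - j) * w) • v' = rv y2 + (-1 : ℝ) • rv y1 + (a2 + (-1 : ℝ) • a1) := by
    have e7 : rv (fl 1 (((i : ℝ) * w) • v')) = a1 + ((i : ℝ) * w) • v' := by rw [ha1]; abel
    have e8 : rv (fl 1 (((j : ℝ) * w) • v')) = a2 + ((j : ℝ) * w) • v' := by rw [ha2]; abel
    rw [e7, e8] at e5
    rw [sub_mul, sub_smul, neg_smul, one_smul, neg_smul, one_smul]
    have e9 : ((i : ℝ) * w) • v' = rv y2 + (a2 + ((j : ℝ) * w) • v') - rv y1 - a1 := by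
      rw [← e5]; abel
    rw [e9]
    abel
  have h4 : tr v h ((((i : ℝ) - j) * w) • v') ≤ 2 * W + 2 * Ct * d := by
    rw [e6]
    have s1 := tr_add_le (v := v) (h := h) (rv y2 + (-1 : ℝ) • rv y1) (a2 + (-1 : ℝ) • a1)
    have s2 := tr_add_le (v := v) (h := h) (rv y2) ((-1 : ℝ) • rv y1)
    have s3 := tr_add_le (v := v) (h := h) a2 ((-1 : ℝ) • a1)
    have s4 : tr v h ((-1 : ℝ) • rv y1) = tr v h (rv y1) := by rw [tr_smul]; simp
    have s5 : tr v h ((-1 : ℝ) • a1) = tr v h a1 := by rw [tr_smul]; simp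
    have s6 := hCt a1
    have s7 := hCt a2
    have s8 : Ct * nr a1 ≤ Ct * d := mul_le_mul_of_nonneg_left n1' hCt0
    have s9 : Ct * nr a2 ≤ Ct * d := mul_le_mul_of_nonneg_left n2' hCt0
    linarith
  rw [tr_smul, hY, abs_mul] at h4
  have h5 : (1 : ℝ) ≤ |(i : ℝ) - j| := by
    have h6 : ((i : ℤ) - j) ≠ 0 := by omega
    have h7 : (1 : ℤ) ≤ |(i : ℤ) - j| := Int.one_le_abs h6
    have h8 : ((1 : ℤ) : ℝ) ≤ ((|(i : ℤ) - j| : ℤ) : ℝ) := by exact_mod_cast h7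
    push_cast at h8
    exact h8
  have h6 : w * Y ≤ |w| * Y := by
    have : 0 ≤ Y := by rw [← hY]; exact tr_nonneg v'
    exact mul_le_mul_of_nonneg_right (le_abs_self w) this
  have h7 : 0 ≤ |w| * Y := hwY.trans h6
  have h8 : |w| * Y ≤ |(i : ℝ) - j| * |w| * Y := by
    calc |w| * Y = 1 * (|w| * Y) := (one_mul _).symm
      _ ≤ |(i : ℝ) - j| * (|w| * Y) := mul_le_mul_of_nonneg_right h5 h7
      _ = _ := by ring
  linarith


/-- the numbers -/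
theorem final_num {b J w s A₁ A₂ A₃ A₄ n0 Hr dd : ℝ} {k C C' : ℕ} (hb : 1 ≤ b) (hs : 1 ≤ s)
    (hA₁ : 0 ≤ A₁) (hA₂ : 0 ≤ A₂) (hA₃ : 0 ≤ A₃) (hA₄ : 0 ≤ A₄) (hn0 : 0 ≤ n0) (hHr : 0 ≤ Hr)
    (hdd : 0 ≤ dd) (hJ0 : 0 ≤ J) (hw0 : 0 ≤ w) (hJw : J * w ≤ A₄ * b ^ (2 * C + 1) * s ^ 2)
    (hJ : J ≤ A₃ * b ^ (C + 1)) (hk : k = C' + 3 * C + 5)
    (h : s ^ 2 ≤ A₁ * b + A₂ * b + 2 * b ^ C' * (√(J * w) + 1) +
      J * (8 * √((Hr * b ^ 3 + 1) * (J * w * n0 + 2 * dd + 1)))) :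
    s ≤ (A₁ + A₂ + 2 * (A₄ + 1) + 2 + 8 * A₃ * ((Hr + 1) * (A₄ * n0 + 2 * dd + 1))) * b ^ k := by
  have hb0 : 0 < b := by linarith
  have hs0 : 0 < s := by linarith
  have pw : ∀ i j : ℕ, i ≤ j → b ^ i ≤ b ^ j := fun i j hij => pow_le_pow_right₀ hb hij
  have one_pw : ∀ i : ℕ, 1 ≤ b ^ i := fun i => one_le_pow₀ hb
  have hJw0 : 0 ≤ J * w := mul_nonneg hJ0 hw0
  -- the square root of J w
  have q1 : √(J * w) ≤ (A₄ + 1) * b ^ (2 * C + 1) * s := by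
    rw [Real.sqrt_le_left (by positivity)]
    refine hJw.trans ?_
    have e1 : ((A₄ + 1) * b ^ (2 * C + 1) * s) ^ 2 =
        (A₄ + 1) ^ 2 * (b ^ (2 * C + 1) * (b ^ (2 * C + 1) * s ^ 2)) := by ring
    rw [e1]
    have e2 : A₄ ≤ (A₄ + 1) ^ 2 := by nlinarith
    have e3 : b ^ (2 * C + 1) * s ^ 2 ≤ b ^ (2 * C + 1) * (b ^ (2 * C + 1) * s ^ 2) := by
      have := one_pw (2 * C + 1)
      have h0 : 0 ≤ b ^ (2 * C + 1) * s ^ 2 := by positivity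
      nlinarith
    calc A₄ * b ^ (2 * C + 1) * s ^ 2 = A₄ * (b ^ (2 * C + 1) * s ^ 2) := by ring
      _ ≤ (A₄ + 1) ^ 2 * (b ^ (2 * C + 1) * s ^ 2) := by gcongr
      _ ≤ _ := by gcongr
  set Z : ℝ := (Hr + 1) * (A₄ * n0 + 2 * dd + 1) with hZ
  have hZ1 : 1 ≤ Z := by
    have : 1 ≤ A₄ * n0 + 2 * dd + 1 := by
      have := mul_nonneg hA₄ hn0
      linarith
    nlinarith
  have q2 : √((Hr * b ^ 3 + 1) * (J * w * n0 + 2 * dd + 1)) ≤ Z * b ^ (2 * C + 4) * s := by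
    rw [Real.sqrt_le_left (by positivity)]
    have e1 : Hr * b ^ 3 + 1 ≤ (Hr + 1) * b ^ 3 := by
      have := one_pw 3
      nlinarith
    have e2 : J * w * n0 + 2 * dd + 1 ≤ (A₄ * n0 + 2 * dd + 1) * (b ^ (2 * C + 1) * s ^ 2) := by
      have h1 : J * w * n0 ≤ A₄ * b ^ (2 * C + 1) * s ^ 2 * n0 :=
        mul_le_mul_of_nonneg_right hJw hn0
      have h2 : 1 ≤ b ^ (2 * C + 1) * s ^ 2 := by
        have := one_pw (2 * C + 1)
        have h3 : 1 ≤ s ^ 2 := one_le_pow₀ hs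
        nlinarith
      nlinarith
    have h0 : 0 ≤ J * w * n0 + 2 * dd + 1 := by positivity
    calc (Hr * b ^ 3 + 1) * (J * w * n0 + 2 * dd + 1)
        ≤ ((Hr + 1) * b ^ 3) * ((A₄ * n0 + 2 * dd + 1) * (b ^ (2 * C + 1) * s ^ 2)) := by
          gcongr
      _ = Z * (b ^ (2 * C + 4) * s ^ 2) := by
          rw [hZ]
          have : b ^ (2 * C + 4) = b ^ 3 * b ^ (2 * C + 1) := by rw [← pow_add]; ring_nf
          rw [this]; ring
      _ ≤ Z ^ 2 * (b ^ (2 * C + 4) * (b ^ (2 * C + 4) * s ^ 2)) := by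
          have h3 : Z ≤ Z ^ 2 := by nlinarith
          have h4 : b ^ (2 * C + 4) * s ^ 2 ≤ b ^ (2 * C + 4) * (b ^ (2 * C + 4) * s ^ 2) := by
            have := one_pw (2 * C + 4)
            have h0 : 0 ≤ b ^ (2 * C + 4) * s ^ 2 := by positivity
            nlinarith
          have h5 : 0 ≤ b ^ (2 * C + 4) * s ^ 2 := by positivity
          gcongr
      _ = _ := by ring
  have hkb : ∀ i ≤ k, b ^ i * s ≤ b ^ k * s := fun i hi =>
    mul_le_mul_of_nonneg_right (pw i k hi) hs0.le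
  have r0 : b ≤ b ^ k * s := by
    have h1 := hkb 1 (by omega)
    rw [pow_one] at h1
    nlinarith
  have r1 : 2 * b ^ C' * (√(J * w) + 1) ≤ (2 * (A₄ + 1) + 2) * (b ^ k * s) := by
    have h1 : b ^ C' * √(J * w) ≤ (A₄ + 1) * (b ^ k * s) := by
      calc b ^ C' * √(J * w) ≤ b ^ C' * ((A₄ + 1) * b ^ (2 * C + 1) * s) := by gcongr
        _ = (A₄ + 1) * (b ^ (C' + (2 * C + 1)) * s) := by rw [pow_add]; ring
        _ ≤ (A₄ + 1) * (b ^ k * s) := by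
            have := hkb (C' + (2 * C + 1)) (by omega)
            gcongr
    have h2 : b ^ C' ≤ b ^ k * s := by
      have h3 := hkb C' (by omega)
      have h4 : b ^ C' * 1 ≤ b ^ C' * s := mul_le_mul_of_nonneg_left hs (by positivity)
      linarith
    nlinarith
  have r2 : J * (8 * √((Hr * b ^ 3 + 1) * (J * w * n0 + 2 * dd + 1))) ≤
      8 * A₃ * Z * (b ^ k * s) := by
    calc J * (8 * √((Hr * b ^ 3 + 1) * (J * w * n0 + 2 * dd + 1)))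
        ≤ (A₃ * b ^ (C + 1)) * (8 * (Z * b ^ (2 * C + 4) * s)) := by gcongr
      _ = 8 * A₃ * Z * (b ^ (C + 1 + (2 * C + 4)) * s) := by rw [pow_add]; ring
      _ ≤ 8 * A₃ * Z * (b ^ k * s) := by
          have := hkb (C + 1 + (2 * C + 4)) (by omega)
          gcongr
  have r3 : A₁ * b ≤ A₁ * (b ^ k * s) := mul_le_mul_of_nonneg_left r0 hA₁
  have r4 : A₂ * b ≤ A₂ * (b ^ k * s) := mul_le_mul_of_nonneg_left r0 hA₂
  have r5 : s * s ≤ ((A₁ + A₂ + 2 * (A₄ + 1) + 2 + 8 * A₃ * Z) * b ^ k) * s := by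
    calc s * s = s ^ 2 := by ring
      _ ≤ _ := h
      _ ≤ A₁ * (b ^ k * s) + A₂ * (b ^ k * s) + (2 * (A₄ + 1) + 2) * (b ^ k * s) +
          8 * A₃ * Z * (b ^ k * s) := by linarith
      _ = _ := by ring
  exact le_of_mul_le_mul_right r5 hs0

end

end Pool.Agent.Helper72.GP
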